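import Pool.Agent.Work.MP_03df5c_all.Log

/-!
# Block EST: the growth estimate
-/

set_option autoImplicit false

open Finset PowerSeries

namespace Pool.Agent.Work.MP_03df5c_all

variable {p : ℕ} [hp : Fact p.Prime]

namespace EstAux

lemma letter_eq_zero {R : Type*} [CommRing R] {c : Bool} {u : List Bool} (h : u.length ≠ 1) :
    letter R c u = 0 := by
  unfold letter
  rw [if_neg]
  rintro rfl
  exact h rfl

lemma bd_letter (c : Bool) (u : List Bool) {r : ℝ} :
    Bd (letter (PowerSeries ℚ_[p]) c u) r 1 := by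
  unfold letter
  split_ifs
  · exact bd_one
  · exact bd_zero zero_le_one

lemma norm_letter (c : Bool) (u : List Bool) : ‖letter ℚ_[p] c u‖ ≤ 1 := by
  unfold letter
  split_ifs
  · rw [norm_one]
  · rw [norm_zero]; exact zero_le_one

lemma bd_letter_left {G : List Bool → PowerSeries ℚ_[p]} {w : List Bool} {k : ℕ} {r M : ℝ}
    (hr : 0 ≤ r) (hM : 0 ≤ M) (hw : w.length = k + 1)
    (h : ∀ u : List Bool, u.length = k → Bd (G u) r M) (c : Bool) :
    Bd (cmul (letter _ c) G w) r M := by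
  unfold cmul
  refine Bd.sum _ _ hr hM fun i hi => ?_
  rw [mem_range] at hi
  by_cases h1 : i = 1
  · subst h1
    have := (bd_letter (p := p) c (w.take 1) (r := r)).mul hr (h (w.drop 1) (by simp [hw]))
    rwa [one_mul] at this
  · rw [letter_eq_zero, zero_mul]
    · exact bd_zero hM
    · rw [List.length_take]
      omega

lemma bd_letter_right {G : List Bool → PowerSeries ℚ_[p]} {w : List Bool} {k : ℕ} {r M : ℝ}
    (hr : 0 ≤ r) (hM : 0 ≤ M) (hw : w.length = k + 1)
    (h : ∀ u : List Bool, u.length = k → Bd (G u) r M) (c : Bool) :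
    Bd (cmul G (letter _ c) w) r M := by
  unfold cmul
  refine Bd.sum _ _ hr hM fun i hi => ?_
  rw [mem_range] at hi
  by_cases h1 : i = k
  · subst h1
    have := (h (w.take i) (by rw [List.length_take]; omega)).mul hr
      (bd_letter (p := p) c (w.drop i) (r := r))
    rwa [mul_one] at this
  · rw [letter_eq_zero (u := w.drop i), mul_zero]
    · exact bd_zero hM
    · rw [List.length_drop]
      omega

lemma const_letter_left {G : List Bool → PowerSeries ℚ_[p]} {w : List Bool} {k : ℕ}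
    (hk : 1 ≤ k) (hw : w.length = k + 1)
    (h : ∀ u : List Bool, u ≠ [] → constantCoeff (G u) = 0) (c : Bool) :
    constantCoeff (cmul (letter _ c) G w) = 0 := by
  unfold cmul
  rw [map_sum]
  refine sum_eq_zero fun i hi => ?_
  rw [mem_range] at hi
  rw [map_mul]
  by_cases h1 : i = 1
  · subst h1
    rw [h (w.drop 1), mul_zero]
    intro h2
    have := congrArg List.length h2
    simp at this
    omega
  · rw [letter_eq_zero, map_zero, zero_mul]
    rw [List.length_take]
    omega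

lemma const_letter_right {G : List Bool → PowerSeries ℚ_[p]} {w : List Bool} {k : ℕ}
    (hk : 1 ≤ k) (hw : w.length = k + 1)
    (h : ∀ u : List Bool, u ≠ [] → constantCoeff (G u) = 0) (c : Bool) :
    constantCoeff (cmul G (letter _ c) w) = 0 := by
  unfold cmul
  rw [map_sum]
  refine sum_eq_zero fun i hi => ?_
  rw [mem_range] at hi
  rw [map_mul]
  by_cases h1 : i = k
  · subst h1
    rw [h (w.take i), zero_mul]
    intro h2
    have e : (w.take i).length = i := by rw [List.length_take]; omega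
    rw [h2, List.length_nil] at e
    omega
  · rw [letter_eq_zero (u := w.drop i), map_zero, mul_zero]
    rw [List.length_drop]
    omega

/-- The value at one of a product with constants. -/
lemma value_cmul (f g : List Bool → PowerSeries ℚ_[p]) (w : List Bool)
    (hf : ∀ u, Overconvergent (f u)) (hg : ∀ u, Overconvergent (g u)) :
    valueOne (cmul f g w) = cmul (fun u => valueOne (f u)) (fun u => valueOne (g u)) w := by
  unfold cmul
  rw [valueOne_sum _ _ fun i _ => oc_mul (hf _) (hg _)]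
  refine sum_congr rfl fun i _ => ?_
  rw [valueOne_mul (hf _) (hg _)]

lemma oc_letter (c : Bool) (u : List Bool) : Overconvergent (letter (PowerSeries ℚ_[p]) c u) :=
  ⟨2, one_lt_two, 1, bd_letter c u⟩

lemma value_letter (c : Bool) (u : List Bool) :
    valueOne (letter (PowerSeries ℚ_[p]) c u) = letter ℚ_[p] c u := by
  unfold letter
  split_ifs
  · exact valueOne_one
  · exact valueOne_zero

lemma oc_cmul (f g : List Bool → PowerSeries ℚ_[p]) (w : List Bool)
    (hf : ∀ u, Overconvergent (f u)) (hg : ∀ u, Overconvergent (g u)) :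
    Overconvergent (cmul f g w) := by
  unfold cmul
  exact oc_sum _ _ fun i _ => oc_mul (hf _) (hg _)

lemma norm_b_letter {b : List Bool → ℚ_[p]} (hb1 : b [false] = 0) (hb2 : b [true] = 1)
    {u : List Bool} (hu : u.length = 1) : ‖b u‖ ≤ 1 := by
  obtain ⟨c, rfl⟩ := List.length_eq_one_iff.mp hu
  cases c
  · rw [hb1, norm_zero]; exact zero_le_one
  · rw [hb2, norm_one]

/-- The bound for `b`. -/
lemma norm_b {Φ b : List Bool → ℚ_[p]} (hΦ0 : Φ [] = 1) (hb0 : b [] = 0) (hb1 : b [false] = 0)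
    (hb2 : b [true] = 1) (hconj : cmul (letter _ true) Φ = cmul Φ b) {k : ℕ} (hk : 1 ≤ k)
    (hV : ∀ u : List Bool, 1 ≤ u.length → u.length ≤ k → ‖Φ u‖ ≤ (p : ℝ) ^ (u.length - 1))
    (hB : ∀ u : List Bool, 2 ≤ u.length → u.length ≤ k → ‖b u‖ ≤ (p : ℝ) ^ (u.length - 2))
    {w : List Bool} (hw : w.length = k + 1) : ‖b w‖ ≤ (p : ℝ) ^ (k - 1) := by
  have hp1 : (1 : ℝ) ≤ p := by exact_mod_cast hp.out.one_le
  have hC : (0 : ℝ) ≤ (p : ℝ) ^ (k - 1) := by positivity
  have h1 := congrFun hconj w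
  have h2 : cmul Φ b w = b w + ∑ i ∈ range (k + 1), Φ (w.take (i + 1)) * b (w.drop (i + 1)) := by
    unfold cmul
    rw [hw, sum_range_succ', List.take_zero, List.drop_zero, hΦ0, one_mul, add_comm]
  rw [h2] at h1
  have h3 : b w = cmul (letter _ true) Φ w
      - ∑ i ∈ range (k + 1), Φ (w.take (i + 1)) * b (w.drop (i + 1)) := by
    rw [h1]; ring
  rw [h3]
  have h4 : ‖cmul (letter _ true) Φ w‖ ≤ (p : ℝ) ^ (k - 1) := by
    unfold cmul
    refine norm_sum_le_of _ _ hC fun i hi => ?_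
    rw [mem_range] at hi
    by_cases h1 : i = 1
    · subst h1
      have e : (w.drop 1).length = k := by simp [hw]
      have := hV (w.drop 1) (by omega) (by omega)
      rw [e] at this
      rw [norm_mul]
      calc ‖letter ℚ_[p] true (w.take 1)‖ * ‖Φ (w.drop 1)‖ ≤ 1 * (p : ℝ) ^ (k - 1) :=
            mul_le_mul (norm_letter _ _) this (norm_nonneg _) zero_le_one
        _ = _ := one_mul _
    · rw [letter_eq_zero, zero_mul, norm_zero]
      · exact hC
      · rw [List.length_take]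
        omega
  have h5 : ‖∑ i ∈ range (k + 1), Φ (w.take (i + 1)) * b (w.drop (i + 1))‖
      ≤ (p : ℝ) ^ (k - 1) := by
    refine norm_sum_le_of _ _ hC fun i hi => ?_
    rw [mem_range] at hi
    have e1 : (w.take (i + 1)).length = i + 1 := by rw [List.length_take]; omega
    have e2 : (w.drop (i + 1)).length = k - i := by rw [List.length_drop]; omega
    rw [norm_mul]
    rcases lt_trichotomy (i + 1) k with h | h | h
    · have a1 := hV (w.take (i + 1)) (by omega) (by omega)
      have a2 := hB (w.drop (i + 1)) (by omega) (by omega)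
      rw [e1, Nat.add_sub_cancel] at a1
      rw [e2] at a2
      calc _ ≤ (p : ℝ) ^ i * (p : ℝ) ^ (k - i - 2) :=
            mul_le_mul a1 a2 (norm_nonneg _) (by positivity)
        _ = (p : ℝ) ^ (i + (k - i - 2)) := (pow_add _ _ _).symm
        _ ≤ _ := pow_le_pow_right₀ hp1 (by omega)
    · have a1 := hV (w.take (i + 1)) (by omega) (by omega)
      have a2 := norm_b_letter hb1 hb2 (u := w.drop (i + 1)) (by omega)
      rw [e1, Nat.add_sub_cancel] at a1
      calc _ ≤ (p : ℝ) ^ i * 1 := mul_le_mul a1 a2 (norm_nonneg _) (by positivity)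
        _ = (p : ℝ) ^ i := mul_one _
        _ ≤ _ := pow_le_pow_right₀ hp1 (by omega)
    · have a2 : w.drop (i + 1) = [] := by
        rw [← List.length_eq_zero_iff, e2]; omega
      rw [a2, hb0, norm_zero, mul_zero]
      exact hC
  rw [sub_eq_add_neg]
  refine (IsUltrametricDist.norm_add_le_max _ _).trans (max_le h4 ?_)
  rwa [norm_neg]

/-- From the growth to the value. -/
lemma norm_value {f : PowerSeries ℚ_[p]} {r ρ : ℝ} {k N : ℕ} (hr : 1 ≤ r) (hρ : 1 < ρ)
    (hkN : k + 1 ≤ N) (hρp : ρ ^ (p * (N + 1)) ≤ p)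
    (h : Bd f r ((p : ℝ) ^ k * ρ ^ (p * (k + 1)))) : ‖valueOne f‖ ≤ (p : ℝ) ^ k := by
  have hp0 : (0 : ℝ) < p := by exact_mod_cast hp.out.pos
  refine norm_tsum_le_of (by positivity) fun n => ?_
  have h1 : ‖coeff n f‖ ≤ (p : ℝ) ^ k * ρ ^ (p * (k + 1)) := by
    refine le_trans ?_ (h n)
    exact le_mul_of_one_le_right (norm_nonneg _) (one_le_pow₀ hr)
  have h2 : ρ ^ (p * (k + 1)) < p := by
    refine lt_of_lt_of_le ?_ hρp
    refine pow_lt_pow_right₀ hρ ?_
    exact Nat.mul_lt_mul_of_pos_left (by omega) hp.out.pos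
  have h3 : ‖coeff n f‖ < (p : ℝ) ^ (k + 1) := by
    refine lt_of_le_of_lt h1 ?_
    rw [pow_succ]
    exact mul_lt_mul_of_pos_left h2 (by positivity)
  have h4 := (Padic.norm_le_pow_iff_norm_lt_pow_add_one (coeff n f) (k : ℤ)).mpr (by
    have : ((k : ℤ) + 1) = ((k + 1 : ℕ) : ℤ) := by push_cast; ring
    rw [this, zpow_natCast]
    exact h3)
  rwa [zpow_natCast] at h4

/-- The bound for `(G b)(w)`. -/
lemma bd_Gb {G : List Bool → PowerSeries ℚ_[p]} {b : List Bool → ℚ_[p]} {ρ τ : ℝ} {k : ℕ}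
    (hk : 1 ≤ k) (hτ : 1 < τ) (hρ : 1 < ρ) (hnil : G [] = 1)
    (hb0 : b [] = 0) (hb1 : b [false] = 0) (hb2 : b [true] = 1)
    (hG : ∀ u : List Bool, 1 ≤ u.length → u.length ≤ k →
      Bd (G u) (ρ / τ ^ u.length) ((p : ℝ) ^ (u.length - 1) * ρ ^ (p * u.length)))
    (hB : ∀ u : List Bool, 2 ≤ u.length → u.length ≤ k + 1 → ‖b u‖ ≤ (p : ℝ) ^ (u.length - 2))
    {w : List Bool} (hw : w.length = k + 1) :
    Bd (cmul G (fun v => PowerSeries.C (b v)) w) (ρ / τ ^ k)
      ((p : ℝ) ^ (k - 1) * ρ ^ (p * k)) := by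
  have hp1 : (1 : ℝ) ≤ p := by exact_mod_cast hp.out.one_le
  have hτ0 : 0 < τ := by linarith
  have hρ0 : 0 < ρ := by linarith
  have hr : 0 ≤ ρ / τ ^ k := by positivity
  have hM : 0 ≤ (p : ℝ) ^ (k - 1) * ρ ^ (p * k) := by positivity
  have h1ρ : 1 ≤ ρ ^ (p * k) := one_le_pow₀ hρ.le
  unfold cmul
  refine Bd.sum _ _ hr hM fun i hi => ?_
  rw [mem_range] at hi
  have e1 : (w.take i).length = i := by rw [List.length_take]; omega
  have e2 : (w.drop i).length = k + 1 - i := by rw [List.length_drop]; omega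
  rcases Nat.eq_zero_or_pos i with h0 | h0
  · subst h0
    rw [List.take_zero, List.drop_zero, hnil, one_mul]
    refine (bd_C (b w)).mono hr le_rfl ?_
    have := hB w (by omega) (by omega)
    rw [hw] at this
    calc ‖b w‖ ≤ (p : ℝ) ^ (k - 1) := this
      _ = (p : ℝ) ^ (k - 1) * 1 := (mul_one _).symm
      _ ≤ _ := by gcongr
  · rcases lt_trichotomy i k with h | h | h
    · have a1 := hG (w.take i) (by omega) (by omega)
      have a2 := hB (w.drop i) (by omega) (by omega)
      rw [e1] at a1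
      rw [e2] at a2
      have hrr : ρ / τ ^ k ≤ ρ / τ ^ i :=
        div_le_div_of_nonneg_left hρ0.le (by positivity) (pow_le_pow_right₀ hτ.le h.le)
      refine ((a1.mono hr hrr le_rfl).mul hr (bd_C (b (w.drop i)))).mono hr le_rfl ?_
      calc (p : ℝ) ^ (i - 1) * ρ ^ (p * i) * ‖b (w.drop i)‖
          ≤ (p : ℝ) ^ (i - 1) * ρ ^ (p * i) * (p : ℝ) ^ (k + 1 - i - 2) := by gcongr
        _ = (p : ℝ) ^ (i - 1 + (k + 1 - i - 2)) * ρ ^ (p * i) := by rw [pow_add]; ring
        _ ≤ (p : ℝ) ^ (k - 1) * ρ ^ (p * k) :=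
          mul_le_mul (pow_le_pow_right₀ hp1 (by omega))
            (pow_le_pow_right₀ hρ.le (Nat.mul_le_mul_left _ h.le)) (by positivity) (by positivity)
    · subst h
      have a1 := hG (w.take i) (by omega) (by omega)
      have a2 := norm_b_letter hb1 hb2 (u := w.drop i) (by omega)
      rw [e1] at a1
      refine (a1.mul hr (bd_C (b (w.drop i)))).mono hr le_rfl ?_
      calc _ ≤ (p : ℝ) ^ (i - 1) * ρ ^ (p * i) * 1 := by gcongr
        _ = _ := mul_one _
    · have a2 : w.drop i = [] := by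
        rw [← List.length_eq_zero_iff, e2]; omega
      simp only [a2, hb0, map_zero, mul_zero]
      exact bd_zero hM

end EstAux

open EstAux

lemma natCast_ps_ne_zero : (p : PowerSeries ℚ_[p]) ≠ 0 := by
  intro h
  have h1 := congrArg constantCoeff h
  rw [map_natCast, map_zero] at h1
  exact hp.out.ne_zero (by exact_mod_cast h1)

/-- Degree one. -/
lemma est_one (h3 : 3 ≤ p) {ρ : ℝ} (hρ : 1 < ρ) (hρp : ρ ^ (2 * p) ≤ p)
    {G : List Bool → PowerSeries ℚ_[p]} {b : List Bool → ℚ_[p]} (hF : IsFrobenius p G b)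
    (hb0 : b [] = 0) (hb1 : b [false] = 0) (hb2 : b [true] = 1) (c : Bool) :
    Bd (G [c]) ρ (ρ ^ p) := by
  obtain ⟨L, hL0, hL, hbd⟩ := stmt_LOG p ρ h3 hρ.le hρp
  have h1 := hF.ode [c]
  have hnil := hF.nil
  have h2 : (p : PowerSeries ℚ_[p]) * frobD p * ((X * (1 - X)) * d⁄dX ℚ_[p] (G [c]))
      = (X * (1 - X)) * d⁄dX ℚ_[p] (frobD p) := by
    cases c
    · simp only [cmul, letter, List.length_cons, List.length_nil, zero_add, sum_range_succ,
        range_zero, sum_empty, List.take_zero, List.drop_zero, hnil, hb0, hb1, List.take_succ_cons,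
        List.drop_succ_cons, map_zero, mul_zero, one_mul, mul_one, add_zero] at h1
      simp at h1
      linear_combination h1
    · simp only [cmul, letter, List.length_cons, List.length_nil, zero_add, sum_range_succ,
        range_zero, sum_empty, List.take_zero, List.drop_zero, hnil, hb0, hb2, List.take_succ_cons,
        List.drop_succ_cons, map_zero, mul_zero, one_mul, mul_one, add_zero] at h1
      simp at h1
      linear_combination h1
  rw [← hL] at h2
  have h4 : (p : PowerSeries ℚ_[p]) * frobD p * (X * (1 - X)) ≠ 0 :=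
    mul_ne_zero (mul_ne_zero natCast_ps_ne_zero frobD_ne_zero) X_mul_ne_zero
  have h5 : d⁄dX ℚ_[p] (G [c]) = d⁄dX ℚ_[p] L := by
    refine mul_left_cancel₀ h4 ?_
    linear_combination h2
  have h6 : G [c] = L := by
    rw [eq_integ (hF.zero [c] (by simp)) rfl, eq_integ hL0 rfl, h5]
  rw [h6]
  exact hbd

/-- The induction step for the growth. -/
lemma est_step (h3 : 3 ≤ p) {N k : ℕ} {ρ τ : ℝ} (hPar : Params p N ρ τ) (hk : 1 ≤ k)
    (hkN : k + 1 ≤ N)
    {G : List Bool → PowerSeries ℚ_[p]} {b : List Bool → ℚ_[p]} (hF : IsFrobenius p G b)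
    (hb0 : b [] = 0) (hb1 : b [false] = 0) (hb2 : b [true] = 1)
    (hG : ∀ u : List Bool, 1 ≤ u.length → u.length ≤ k →
      Bd (G u) (ρ / τ ^ u.length) ((p : ℝ) ^ (u.length - 1) * ρ ^ (p * u.length)))
    (hB : ∀ u : List Bool, 2 ≤ u.length → u.length ≤ k + 1 → ‖b u‖ ≤ (p : ℝ) ^ (u.length - 2))
    {w : List Bool} (hw : w.length = k + 1) :
    Bd (G w) (ρ / τ ^ (k + 1)) ((p : ℝ) ^ k * ρ ^ (p * (k + 1))) := by
  obtain ⟨hτ, hpτ, hτρ, hρp⟩ := hPar
  have hp1 : (1 : ℝ) ≤ p := by exact_mod_cast hp.out.one_le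
  have hτ0 : 0 < τ := by linarith
  have hρ1 : 1 < ρ := by
    refine lt_of_lt_of_le ?_ hτρ
    exact one_lt_pow₀ hτ (by omega)
  have hρ0 : 0 < ρ := by linarith
  have hτr : τ ≤ ρ / τ ^ k := by
    rw [le_div_iff₀ (by positivity), ← pow_succ']
    exact (pow_le_pow_right₀ hτ.le hkN).trans hτρ
  have hr1 : 1 < ρ / τ ^ k := lt_of_lt_of_le hτ hτr
  have hrρ : ρ / τ ^ k ≤ ρ := div_le_self hρ0.le (one_le_pow₀ hτ.le)
  have hrt : ρ / τ ^ (k + 1) = (ρ / τ ^ k) / τ := by
    rw [pow_succ, div_div]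
  rw [hrt]
  have hGk : ∀ u : List Bool, u.length = k →
      Bd (G u) (ρ / τ ^ k) ((p : ℝ) ^ (k - 1) * ρ ^ (p * k)) := by
    intro u hu
    have := hG u (by omega) (by omega)
    rwa [hu] at this
  have hGb := bd_Gb hk hτ hρ1 hF.nil hb0 hb1 hb2 hG hB hw
  generalize ρ / τ ^ k = r at hτr hr1 hrρ hGk hGb
  have hM : 0 ≤ (p : ℝ) ^ (k - 1) * ρ ^ (p * k) := by positivity
  have hr0 : 0 ≤ r := by linarith
  have hAG := bd_letter_left (p := p) hr0 hM hw hGk false
  have hBG := bd_letter_left (p := p) hr0 hM hw hGk true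
  have hGA := bd_letter_right (p := p) hr0 hM hw hGk false
  -- the series f
  set f : PowerSeries ℚ_[p] := (1 - X) * (cmul (letter _ false) G w - cmul G (letter _ false) w)
    - X * (cmul (letter _ true) G w - cmul G (fun v => PowerSeries.C (b v)) w) with hf
  have hfb : Bd f r (r * ((p : ℝ) ^ (k - 1) * ρ ^ (p * k))) := by
    have a1 : Bd (1 - X : PowerSeries ℚ_[p]) r r :=
      (bd_one.mono hr0 le_rfl hr1.le).sub hr0 (bd_X hr0)
    exact (a1.mul hr0 (hAG.sub hr0 hGA)).sub hr0 ((bd_X hr0).mul hr0 (hBG.sub hr0 hGb))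
  have hocC : ∀ v, Overconvergent (PowerSeries.C (b v) : PowerSeries ℚ_[p]) := fun v => oc_C _
  have ocAG := oc_cmul (letter _ false) G w (oc_letter false) hF.oc
  have ocGA := oc_cmul G (letter _ false) w hF.oc (oc_letter false)
  have ocBG := oc_cmul (letter _ true) G w (oc_letter true) hF.oc
  have ocGb := oc_cmul G (fun v => PowerSeries.C (b v)) w hF.oc hocC
  have hf1 : valueOne f = 0 := by
    have hX1 : valueOne (1 - X : PowerSeries ℚ_[p]) = 0 := by
      rw [valueOne_sub oc_one oc_X, valueOne_one, valueOne_X, sub_self]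
    rw [hf, valueOne_sub (oc_mul (oc_sub oc_one oc_X) (oc_sub ocAG ocGA))
      (oc_mul oc_X (oc_sub ocBG ocGb)), valueOne_mul (oc_sub oc_one oc_X) (oc_sub ocAG ocGA), hX1,
      zero_mul, valueOne_mul oc_X (oc_sub ocBG ocGb), valueOne_sub ocBG ocGb,
      value_cmul _ _ _ (oc_letter true) hF.oc, value_cmul _ _ _ hF.oc hocC]
    simp only [value_letter, valueOne_C]
    have := congrFun hF.conj w
    have e : cmul (fun u => letter ℚ_[p] true u) (fun u => valueOne (G u)) w
        = cmul (fun u => valueOne (G u)) (fun u => b u) w := this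
    rw [e, sub_self, mul_zero, sub_zero]
  have hf0 : constantCoeff f = 0 := by
    rw [hf, map_sub, map_mul, map_mul, map_sub, map_sub (f := constantCoeff) (cmul _ _ w),
      const_letter_left hk hw hF.zero, const_letter_right hk hw hF.zero]
    simp
  have hg := mul_divX hf0
  have hgb : Bd (divX f) r ((p : ℝ) ^ (k - 1) * ρ ^ (p * k)) := by
    intro n
    have h1 := bd_divX hr1 hfb hf0 hf1 n
    have hr0' : 0 < r := by linarith
    have h2 : ‖coeff n (divX f)‖ * r ^ (n + 2) = r * (‖coeff n (divX f)‖ * r ^ n * r) := by ring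
    rw [h2] at h1
    have h3 := le_of_mul_le_mul_left h1 hr0'
    refine le_trans ?_ h3
    exact le_mul_of_one_le_right (by positivity) hr1.le
  -- the logarithmic derivative
  have hrp : r ^ p ≤ p := by
    calc r ^ p ≤ ρ ^ p := pow_le_pow_left₀ hr0 hrρ p
      _ ≤ ρ ^ (p * (N + 1)) := pow_le_pow_right₀ hρ1.le (Nat.le_mul_of_pos_right _ (by omega))
      _ ≤ p := hρp
  obtain ⟨δ, hδ, hδb⟩ := stmt_DELB p r h3 hr1.le hrp
  have hode : d⁄dX ℚ_[p] (G w) = divX f + δ * (cmul G (letter _ false) w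
      + cmul G (fun v => PowerSeries.C (b v)) w) := by
    have h4 : (p : PowerSeries ℚ_[p]) * frobD p * (X * (1 - X)) ≠ 0 :=
      mul_ne_zero (mul_ne_zero natCast_ps_ne_zero frobD_ne_zero) X_mul_ne_zero
    refine mul_left_cancel₀ h4 ?_
    have h5 := hF.ode w
    rw [← hf, ← hδ] at h5
    linear_combination h5 - (p : PowerSeries ℚ_[p]) * frobD p * hg
  have hpp : 2 ≤ p := hp.out.two_le
  have hh : Bd (divX f + δ * (cmul G (letter _ false) w
      + cmul G (fun v => PowerSeries.C (b v)) w)) r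
      (r ^ (p - 2) * ((p : ℝ) ^ (k - 1) * ρ ^ (p * k))) := by
    refine Bd.add hr0 (hgb.mono hr0 le_rfl ?_) ?_
    · exact le_mul_of_one_le_left hM (one_le_pow₀ hr1.le)
    · exact Bd.mul hr0 hδb (hGA.add hr0 hGb)
  have hfin := stmt_INTB p _ (G w) r τ _ hτ hτr hpτ hh (hF.zero w (by
    intro h; rw [h] at hw; simp at hw)) hode
  refine Bd.mono (show Bd (G w) (r / τ) _ from hfin) (by positivity) le_rfl ?_
  have hr' : r ^ (p - 1) ≤ ρ ^ p := by
    calc r ^ (p - 1) ≤ ρ ^ (p - 1) := pow_le_pow_left₀ hr0 hrρ _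
      _ ≤ ρ ^ p := pow_le_pow_right₀ hρ1.le (by omega)
  calc (p : ℝ) * r * (r ^ (p - 2) * ((p : ℝ) ^ (k - 1) * ρ ^ (p * k)))
      = ((p : ℝ) * (p : ℝ) ^ (k - 1)) * (r * r ^ (p - 2)) * ρ ^ (p * k) := by ring
    _ = (p : ℝ) ^ k * r ^ (p - 1) * ρ ^ (p * k) := by
        rw [← pow_succ', ← pow_succ', show k - 1 + 1 = k by omega,
          show p - 2 + 1 = p - 1 by omega]
    _ ≤ (p : ℝ) ^ k * ρ ^ p * ρ ^ (p * k) := by gcongr
    _ = (p : ℝ) ^ k * ρ ^ (p * (k + 1)) := by
        rw [mul_assoc, ← pow_add]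
        congr 2
        ring

theorem stmt_EST (hBLET : Stmt_BLET) : Stmt_EST := by
  intro p hp N ρ τ G b h3 hN hPar hF
  obtain ⟨hb0, hb1, hb2⟩ := hBLET p G b hF
  have hPar' := hPar
  obtain ⟨hτ, hpτ, hτρ, hρp⟩ := hPar'
  have hp1 : (1 : ℝ) ≤ p := by exact_mod_cast hp.out.one_le
  have hτ0 : 0 < τ := by linarith
  have hρ1 : 1 < ρ := by
    refine lt_of_lt_of_le ?_ hτρ
    exact one_lt_pow₀ hτ (by omega)
  have hρ0 : 0 < ρ := by linarith
  have hΦ0 : (fun u => valueOne (G u)) [] = 1 := by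
    simp only [hF.nil]
    exact valueOne_one
  have main : ∀ k : ℕ, k + 1 ≤ N →
      (∀ u : List Bool, 1 ≤ u.length → u.length ≤ k + 1 →
        Bd (G u) (ρ / τ ^ u.length) ((p : ℝ) ^ (u.length - 1) * ρ ^ (p * u.length)) ∧
        ‖valueOne (G u)‖ ≤ (p : ℝ) ^ (u.length - 1) ∧
        (2 ≤ u.length → ‖b u‖ ≤ (p : ℝ) ^ (u.length - 2))) := by
    intro k
    induction k with
    | zero =>
      intro _ u hu1 hu2
      have hu : u.length = 1 := by omega
      obtain ⟨c, rfl⟩ := List.length_eq_one_iff.mp hu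
      have h2p : ρ ^ (2 * p) ≤ p := by
        refine (pow_le_pow_right₀ hρ1.le ?_).trans hρp
        rw [mul_comm]
        exact Nat.mul_le_mul_left _ (by omega)
      have h1 := est_one h3 hρ1 h2p hF hb0 hb1 hb2 c
      have hr1 : 1 ≤ ρ / τ ^ 1 := by
        rw [le_div_iff₀ (by positivity), one_mul]
        exact (pow_le_pow_right₀ hτ.le (by omega)).trans hτρ
      have h2 : Bd (G [c]) (ρ / τ ^ 1) ((p : ℝ) ^ 0 * ρ ^ (p * (0 + 1))) := by
        refine h1.mono (by positivity) (div_le_self hρ0.le (one_le_pow₀ hτ.le)) ?_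
        rw [pow_zero, one_mul, zero_add, mul_one]
      refine ⟨h2, norm_value hr1 hρ1 hN hρp h2, fun h => ?_⟩
      simp at h
    | succ k ih =>
      intro hkN u hu1 hu2
      have ih := ih (by omega)
      rcases Nat.lt_or_ge u.length (k + 2) with hlt | hge
      · exact ih u hu1 (by omega)
      · have hu : u.length = k + 1 + 1 := by omega
        have hB0 : ∀ v : List Bool, v.length = k + 1 + 1 → ‖b v‖ ≤ (p : ℝ) ^ (k + 1 - 1) := by
          intro v hv
          exact norm_b hΦ0 hb0 hb1 hb2 hF.conj (by omega) (fun u h1 h2 => (ih u h1 h2).2.1)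
            (fun u h1 h2 => (ih u (by omega) h2).2.2 h1) hv
        have hB : ∀ v : List Bool, 2 ≤ v.length → v.length ≤ k + 1 + 1 →
            ‖b v‖ ≤ (p : ℝ) ^ (v.length - 2) := by
          intro v h1 h2
          rcases Nat.lt_or_ge v.length (k + 2) with h | h
          · exact (ih v (by omega) (by omega)).2.2 h1
          · have hv : v.length = k + 1 + 1 := by omega
            have := hB0 v hv
            rw [hv]
            simpa using this
        have h1 := est_step h3 hPar (by omega : 1 ≤ k + 1) hkN hF hb0 hb1 hb2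
          (fun v h1 h2 => (ih v h1 h2).1) hB hu
        have hr1 : 1 ≤ ρ / τ ^ (k + 1 + 1) := by
          rw [le_div_iff₀ (by positivity), one_mul]
          exact (pow_le_pow_right₀ hτ.le hkN).trans hτρ
        refine ⟨?_, ?_, fun h => ?_⟩
        · rw [hu]
          exact h1
        · rw [hu]
          exact norm_value hr1 hρ1 hkN hρp h1
        · exact hB u h (by omega)
  intro w hw1 hw2
  obtain ⟨n, rfl⟩ : ∃ n, N = n + 1 := ⟨N - 1, by omega⟩
  exact main n le_rfl w hw1 hw2

end Pool.Agent.Work.MP_03df5c_all
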